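import Mathlib
import Pool.Agent.H274.Squares

/-!
# At least four primes between consecutive odd squares, for all odd squares in windows

Let `P_k` be the number of odd primes in `((2k-1)², (2k+1)²)`; the question is whether `P_k ≥ 2` for all `k ≥ 1`. Let
`1 ≤ u_0, u_1, …` be reals with `∑ u_m^{-t} < ∞` for all `t > τ` (`τ = 0` for geometric sequences, `τ = 1/d` for `u_m = m^d`),
and `θ < 1`. For all `a > 0` outside of a set of Hausdorff dimension at most `(1/5 + τ) / (1 - θ)`, and for almost all `a` if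
`θ + τ < 4/5`: for all large `m`, `P_k ≥ 4` for ALL `k ≥ 3` with `|(2k - 1) - a u_m| ≤ u_m^θ`.

What is used is the theorem of Heath-Brown (The differences between consecutive primes V, IMRN 2021), `HeathBrown`: the sum of
the gaps `p_{j+1} - p_j ≥ √p_j` with `p_j ≤ x` is `O(x^{3/5 + ε})`; we state it, by partial summation, as the convergence of the
series of `(p_{j+1} - p_j) p_j^{-s}` over these gaps for `s > 3/5`.

The proof: the interval contains four disjoint intervals of lengths `2k-1, 2k, 2k, 2k+1`, and if one of these has no primes it is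
in a gap at least as long as the square root of its first prime.
-/

set_option autoImplicit false

namespace Pool.Agent.Results.MP_5f6ee5_nt.FourPrimesInWindows

open Filter MeasureTheory

/-- the primes `p 0 = 2, p 1 = 3, …` -/
noncomputable def p (k : ℕ) : ℕ := Nat.nth Nat.Prime k

/-- Heath-Brown's theorem: the series of `(p_{k+1} - p_k) p_k^{-s}` over the gaps with `p_{k+1} - p_k ≥ √p_k` converges for
`s > 3/5` -/
def HeathBrown : Prop := ∀ s : ℝ, 3 / 5 < s →
  Summable (Set.indicator {k : ℕ | Real.sqrt (p k) ≤ ((p (k + 1) - p k : ℕ) : ℝ)}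
    fun k => ((p (k + 1) - p k : ℕ) : ℝ) * (p k : ℝ) ^ (-s))

/-- the number `P_k` of odd primes strictly between `(2k-1)²` and `(2k+1)²` -/
def P (k : ℕ) : ℕ := ((Finset.Ioo ((2 * k - 1) ^ 2) ((2 * k + 1) ^ 2)).filter fun q => q.Prime ∧ Odd q).card

/-- `P_k ≥ 4` for all `k ≥ 3` with `2k - 1` in the windows around `a u_m`, for all large `m` -/
def Good (u : ℕ → ℝ) (θ a : ℝ) : Prop := ∃ m₀ : ℕ, ∀ m : ℕ, m₀ ≤ m → ∀ k : ℕ, 3 ≤ k →
  |((2 * k - 1 : ℕ) : ℝ) - a * u m| ≤ u m ^ θ → 4 ≤ P k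

/-- **Theorem.** Let `1 ≤ u_m`, `∑_m u_m^{-t} < ∞` for all `t > τ`, `θ < 1`. For all `a > 0` outside of a set of dimension at most
`(1/5 + τ) / (1 - θ)`, and for almost all `a > 0` if `θ + τ < 4/5`, there are at least four odd primes between `(2k-1)²` and
`(2k+1)²`, for all `2k - 1` in the windows around `a u_m`. -/
theorem result (hHB : HeathBrown) (u : ℕ → ℝ) (τ θ : ℝ) (hu : ∀ m, 1 ≤ u m) (hτ : 0 ≤ τ)
    (hgrow : ∀ t : ℝ, τ < t → Summable fun m : ℕ => u m ^ (-t)) (hθ : θ < 1) :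
    (∃ Z : Set ℝ, dimH Z ≤ ENNReal.ofReal ((1 / 5 + τ) / (1 - θ)) ∧ ∀ a : ℝ, 0 < a → a ∉ Z → Good u θ a) ∧
    (θ + τ < 4 / 5 → ∀ᵐ a : ℝ, 0 < a → Good u θ a) := by
  classical
  have h1 : ∃ Z : Set ℝ, dimH Z ≤ ENNReal.ofReal ((1 / 5 + τ) / (1 - θ)) ∧ ∀ a : ℝ, 0 < a → a ∉ Z → Good u θ a := by
    obtain ⟨Z, hZ1, hZ2⟩ := Pool.Agent.H274.Squares.four (fun s hs => hHB s hs) hu hτ hgrow hθ
    refine ⟨Z, hZ1, fun a ha haZ => ?_⟩
    obtain ⟨m₀, hm₀⟩ := hZ2 a ha haZ
    refine ⟨m₀, fun m hm k hk hkm => ?_⟩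
    have h2 := hm₀ m hm (2 * k - 1) (by omega) hkm
    have h3 : 2 * k - 1 + 2 = 2 * k + 1 := by omega
    rw [h3] at h2
    refine h2.trans (Finset.card_le_card fun q hq => ?_)
    rw [Finset.mem_filter, Finset.mem_Ioo] at hq ⊢
    refine ⟨hq.1, hq.2, hq.2.odd_of_ne_two ?_⟩
    have h4 : 2 ≤ 2 * k - 1 := by omega
    have h5 : 4 ≤ (2 * k - 1) ^ 2 := by nlinarith
    omega
  refine ⟨h1, fun hθτ => ?_⟩
  obtain ⟨Z, hZ1, hZ2⟩ := h1
  have hnull : volume Z = 0 := by
    rw [← hausdorffMeasure_real]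
    refine hausdorffMeasure_of_dimH_lt (d := 1) (hZ1.trans_lt ?_)
    have g1 : (1 / 5 + τ) / (1 - θ) < 1 := by
      rw [div_lt_one (by linarith)]
      linarith
    simpa using (ENNReal.ofReal_lt_one).2 g1
  filter_upwards [compl_mem_ae_iff.2 hnull] with a ha ha0
  exact hZ2 a ha0 ha

end Pool.Agent.Results.MP_5f6ee5_nt.FourPrimesInWindows
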